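import Pool.Agent.Helper59.MB.Goals3

/-!
# Packet MB-ALP (MP_49a1ce_an)
-/

set_option autoImplicit false

open MeasureTheory Filter Topology

namespace Pool.Agent.Helper46.MB

open Pool.Agent.Helper59.MB

section

variable {Z : Type} [MeasurableSpace Z]

/-- letterwise application -/
def lw {Z W : Type} (f : Z → W) (y : ℤ → Z) : ℤ → W := fun n => f (y n)

lemma measurable_lw {W : Type} [MeasurableSpace W] {f : Z → W} (hf : Measurable f) :
    Measurable (lw f) :=
  measurable_pi_lambda _ fun n => hf.comp (measurable_pi_apply n)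

lemma mp_lw {W : Type} [MeasurableSpace W] {f : Z → W} (hf : Measurable f) (κ : Measure Z)
    [IsProbabilityMeasure κ] [IsProbabilityMeasure (κ.map f)] :
    MeasurePreserving (lw f) (Be κ) (Be (κ.map f)) :=
  ⟨measurable_lw hf, Measure.infinitePi_map_pi (fun _ : ℤ => κ) fun _ => hf⟩

end

lemma meas_eq {W : Type} [MeasurableSpace W] {f g : W → ℤ → A} (hf : Measurable f)
    (hg : Measurable g) : MeasurableSet {w | f w = g w} := by
  have e : {w | f w = g w} = ⋂ n : ℤ, ⋂ j : ℕ, {w | f w n j = g w n j} := by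
    ext w
    simp only [Set.mem_setOf_eq, Set.mem_iInter]
    exact ⟨fun h n j => by rw [h], fun h => funext fun n => funext fun j => h n j⟩
  rw [e]
  refine MeasurableSet.iInter fun n => MeasurableSet.iInter fun j => ?_
  have h1 : Measurable fun w => f w n j :=
    (measurable_pi_apply j).comp ((measurable_pi_apply n).comp hf)
  have h2 : Measurable fun w => g w n j :=
    (measurable_pi_apply j).comp ((measurable_pi_apply n).comp hg)
  exact measurableSet_eq_fun h1 h2

lemma sfinite_haar2 : SFinite haar2 := by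
  unfold haar2
  infer_instance

lemma prodIso {Z : Type} [MeasurableSpace Z] (κ : Measure Z) [IsProbabilityMeasure κ] (m : Measure A)
    [IsProbabilityMeasure m] (f : Z → A) (g : A → Z)
    (h1 : MeasurePreserving (lw f) (Be κ) (Be m)) (h2 : MeasurePreserving (lw g) (Be m) (Be κ))
    (h3 : ∀ z, g (f z) = z) (h4 : ∀ᵐ y ∂(Be m), lw f (lw g y) = y) :
    Iso (TZ Z) (BZ κ) (⇑TB) (BM m) := by
  haveI := sfinite_haar2
  haveI : IsProbabilityMeasure (Be κ) := by unfold Be; infer_instance
  haveI : IsProbabilityMeasure (Be m) := by unfold Be; infer_instance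
  refine ⟨Prod.map (lw f) id, Prod.map (lw g) id, ?_, ?_, ?_, ?_, ?_⟩
  · exact h1.prod (MeasurePreserving.id haar2)
  · exact h2.prod (MeasurePreserving.id haar2)
  · exact Eventually.of_forall fun x => rfl
  · refine Eventually.of_forall fun x => ?_
    have : lw g (lw f x.1) = x.1 := funext fun n => h3 _
    exact Prod.ext this rfl
  · have h5 : ∀ᵐ y ∂((Be m).prod haar2), lw f (lw g y.1) = y.1 :=
      Measure.quasiMeasurePreserving_fst.ae h4
    filter_upwards [h5] with y hy
    exact Prod.ext hy rfl

lemma dirac_of_ae {Z : Type} [MeasurableSpace Z] (κ : Measure Z) [IsProbabilityMeasure κ] (z₀ : Z)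
    (h : ∀ᵐ z ∂κ, z = z₀) : κ = Measure.dirac z₀ := by
  have h1 : κ.map id = κ.map (fun _ => z₀) := Measure.map_congr h
  rw [Measure.map_id, Measure.map_const, measure_univ, one_smul] at h1
  exact h1

theorem t_ALP : S_ALP := by
  intro Z _ _ κ _
  have hne : Nonempty Z := by
    by_contra hn
    rw [not_nonempty_iff] at hn
    have h1 : κ Set.univ = 1 := measure_univ
    rw [Set.univ_eq_empty_iff.2 hn, measure_empty] at h1
    exact zero_ne_one h1
  let ι : Z → A := MeasurableSpace.mapNatBool Z
  have hι : Measurable ι := MeasurableSpace.measurable_mapNatBool Z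
  have hinj : Function.Injective ι := MeasurableSpace.injective_mapNatBool Z
  have hemb : MeasurableEmbedding ι := hι.measurableEmbedding hinj
  obtain ⟨θ, hθ, hθι⟩ := hemb.exists_measurable_extend (g := (id : Z → Z)) measurable_id
    (fun _ => hne)
  have hθι' : ∀ z, θ (ι z) = z := fun z => congrFun hθι z
  haveI hm : IsProbabilityMeasure (κ.map ι) := Measure.isProbabilityMeasure_map hι.aemeasurable
  have hΦ : MeasurePreserving (lw ι) (Be κ) (Be (κ.map ι)) := mp_lw hι κ
  have hid : lw θ ∘ lw ι = id := funext fun y => funext fun n => hθι' (y n)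
  have hΨ : MeasurePreserving (lw θ) (Be (κ.map ι)) (Be κ) := by
    refine ⟨measurable_lw hθ, ?_⟩
    rw [← hΦ.map_eq, Measure.map_map (measurable_lw hθ) (measurable_lw hι), hid, Measure.map_id]
  have hae : ∀ᵐ y ∂(Be (κ.map ι)), lw ι (lw θ y) = y := by
    rw [← hΦ.map_eq]
    refine (ae_map_iff hΦ.measurable.aemeasurable
      (meas_eq ((measurable_lw hι).comp (measurable_lw hθ)) measurable_id)).2 ?_
    refine Eventually.of_forall fun y => ?_
    exact funext fun n => congrArg ι (hθι' (y n))
  refine ⟨κ.map ι, hm, prodIso κ (κ.map ι) ι θ hΦ hΨ hθι' hae,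
    ⟨lw ι, lw θ, hΦ, hΨ, Eventually.of_forall fun x => rfl,
      Eventually.of_forall fun x => congrFun hid x, hae⟩, ?_⟩
  intro hnd
  by_contra hcon
  push_neg at hcon
  apply hnd
  -- every digit is almost surely constant
  have h1 : ∀ j : ℕ, ∃ b : Bool, ∀ᵐ a ∂(κ.map ι), a j = b := by
    intro j
    have hm1 : Measurable fun a : A => a j := measurable_pi_apply j
    have hmeas : MeasurableSet {a : A | a j = true} := hm1 (measurableSet_singleton true)
    by_cases h0 : 0 < (κ.map ι).real {a | a j = true}
    · refine ⟨true, ?_⟩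
      have h2 := hcon j h0
      have h3 : (κ.map ι).real {a | a j = true} = 1 := le_antisymm measureReal_le_one h2
      have h4 : (κ.map ι) {a | a j = true} = 1 := by
        rw [Measure.real, ENNReal.toReal_eq_one_iff] at h3
        exact h3
      exact (mem_ae_iff_prob_eq_one hmeas).2 h4
    · refine ⟨false, ?_⟩
      have h3 : (κ.map ι).real {a | a j = true} = 0 :=
        le_antisymm (not_lt.1 h0) measureReal_nonneg
      have h4 : (κ.map ι) {a | a j = true} = 0 := by
        rw [Measure.real, ENNReal.toReal_eq_zero_iff] at h3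
        exact h3.resolve_right (measure_ne_top _ _)
      have h5 : ∀ᵐ a ∂(κ.map ι), ¬ (a j = true) := by
        rw [ae_iff]
        simpa using h4
      filter_upwards [h5] with a ha
      simpa using ha
  choose a₀ ha₀ using h1
  have h2 : ∀ᵐ a ∂(κ.map ι), ∀ j, a j = a₀ j := ae_all_iff.2 ha₀
  have h3 : ∀ᵐ z ∂κ, ∀ j, ι z j = a₀ j := ae_of_ae_map hι.aemeasurable h2
  obtain ⟨z₀, hz₀⟩ := h3.exists
  refine ⟨z₀, dirac_of_ae κ z₀ ?_⟩
  filter_upwards [h3] with z hz
  exact hinj (funext fun j => (hz j).trans (hz₀ j).symm)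

end Pool.Agent.Helper46.MB
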