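import Pool.Agent.Helper59.MB.Goals1

/-!
# Packet MB-MOD1 (MP_49a1ce_an)
-/

set_option autoImplicit false

open MeasureTheory Filter Topology

namespace Pool.Agent.Helper46.MB

open Pool.Agent.Helper59.MB

/-- A compact metrizable system, with a metric. -/
theorem pack {Y : Type} [TopologicalSpace Y] [TopologicalSpace.MetrizableSpace Y] [CompactSpace Y]
    [MeasurableSpace Y] [BorelSpace Y] (hUNI : S_UNI) (T : Y ≃ₜ Y) (ν : Measure Y)
    (h1 : IsProbabilityMeasure ν) (h2 : MeasurePreserving (⇑T) ν ν)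
    (h3 : ∀ f : C(Y, ℝ), ∃ c : ℝ, ∀ ε > 0, ∃ N₀ : ℕ, ∀ N ≥ N₀, ∀ x : Y,
      |∑ n ∈ Finset.Icc 1 N, f ((⇑T)^[n] x) - c * N| ≤ ε * N)
    (m : Measure A) [IsProbabilityMeasure m] (h4 : Iso (⇑T) ν (⇑TB) (BM m)) (h5 : UMD (⇑T)) :
    ∃ (Y : Type) (_ : MetricSpace Y) (_ : CompactSpace Y) (_ : MeasurableSpace Y) (_ : BorelSpace Y)
      (T : Y ≃ₜ Y) (ν : Measure Y), UE (⇑T) ν ∧ Iso (⇑T) ν (⇑TB) (BM m) ∧ UMD (⇑T) := by
  letI : MetricSpace Y := TopologicalSpace.metrizableSpaceMetric Y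
  exact ⟨Y, inferInstance, inferInstance, inferInstance, inferInstance, T, ν,
    hUNI Y (⇑T) T.continuous h3 ν h1 h2, h4, h5⟩

theorem t_MOD1 (hXCL : S_XCL) (hXUE : S_XUE) (hUNI : S_UNI) (hISO : S_ISO) (hPAR : S_PAR) :
    S_MOD1 := by
  intro m _
  have hmono : StrictMono s0 := (hPAR (mdup m) 0).mono
  have hcl : IsClosed (X s0 (VM s0) (mdup m)) := hXCL s0 (VM s0) (mdup m) hmono
  obtain ⟨ν, hν1, hν2, hν3⟩ := hISO s0 (VM s0) m (fun K => hPAR (mdup m) K) hcl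
  haveI : CompactSpace (X s0 (VM s0) (mdup m)) := isCompact_iff_compactSpace.1 hcl.isCompact
  exact pack hUNI (TX s0 (VM s0) (mdup m)) ν hν1 hν2
    (hXUE.1 s0 (VM s0) (mdup m) (fun K => hPAR (mdup m) K) hcl) m hν3
    (hXUE.2 (mdup m) hcl)

end Pool.Agent.Helper46.MB
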